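import Pool.Agent.H.MP_f617a8_an.A

set_option autoImplicit false
open MeasureTheory Set Complex Filter Topology Real

namespace Pool.Agent.Results.MP_f617a8_an.Yes

open Pool.Agent.H.MP_f617a8_an

theorem result (s c : ℕ → Lp ℂ 2 (volume.restrict (Ioo (0 : ℝ) π)))
    (hs : ∀ n, s n =ᵐ[volume.restrict (Ioo 0 π)] fun t => ((√(2 / π) * Real.sin (n * t) : ℝ) : ℂ))
    (hc : ∀ n, c n =ᵐ[volume.restrict (Ioo 0 π)] fun t => ((√(2 / π) * Real.cos (n * t) : ℝ) : ℂ))
    (P : Lp ℂ 2 (volume.restrict (Ioo (0 : ℝ) π)) →ₗᵢ[ℂ] Lp ℂ 2 (volume.restrict (Ioo (0 : ℝ) π)))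
    (hP : ∀ n, 1 ≤ n → P (s n) = c n) :
    ⨅ n : ℕ, LinearMap.range (P.toLinearMap ^ n) = ⊥ := by
  have q : ((√(2 / π) : ℝ) : ℂ) ≠ 0 := ofReal_ne_zero.2 (Real.sqrt_pos.2 (by positivity)).ne'
  have i1 : ∀ (u v : Lp ℂ 2 (volume.restrict (Ioo (0 : ℝ) π))) (φ : ℝ → ℝ),
      (u =ᵐ[volume.restrict (Ioo 0 π)] fun t => ((√(2 / π) * φ t : ℝ) : ℂ)) →
      inner ℂ u v = √(2 / π) * ∫ t in Ioo 0 π, (φ t : ℂ) * v t := fun u v φ hu => by
    rw [L2.inner_def, ← integral_const_mul]
    refine integral_congr_ae (hu.mono fun t ht => ?_)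
    simp only [ht, RCLike.inner_apply, conj_ofReal]; push_cast; ring
  have mξ : Measurable ξ := by unfold ξ; fun_prop
  have me : ∀ k : ℝ, MemLp (fun t => cexp (k * ξ t * I)) 2 (volume.restrict (Ioo 0 π)) := fun k =>
    .of_bound (Measurable.aestronglyMeasurable (by fun_prop)) 1
      (.of_forall fun t => by rw [← ofReal_mul, norm_exp_ofReal_mul_I])
  have key : ∀ k : ℝ, ∃ l : ℂ, ‖l‖ < 1 ∧ ∀ f, inner ℂ (P f) (me k).toLp = l * inner ℂ f (me k).toLp := by
    intro k
    set a := Real.exp (-(1 * k * π / 2))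
    set b := Real.exp (-(-1 * k * π / 2))
    have a0 : 0 < a := Real.exp_pos _
    have b0 : 0 < b := Real.exp_pos _
    have ab : (a : ℂ) + b ≠ 0 := by exact_mod_cast (add_pos a0 b0).ne'
    refine ⟨((b - a) / (a + b) : ℝ) * I, ?_, fun f => ?_⟩
    · rw [norm_mul, norm_I, mul_one, norm_real, Real.norm_eq_abs, abs_lt, div_lt_one (by positivity),
        lt_div_iff₀ (by positivity)]
      constructor <;> linarith
    set w := ContinuousLinearMap.adjoint P.toContinuousLinearMap (me k).toLp -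
      ((((b - a) / (a + b) : ℝ) : ℂ) * I) • (me k).toLp with hw
    have hi : ∀ f, inner ℂ f w = inner ℂ (P f) (me k).toLp -
        ((b - a) / (a + b) : ℝ) * I * inner ℂ f (me k).toLp := fun f => by
      rw [hw, inner_sub_right, ContinuousLinearMap.adjoint_inner_right, inner_smul_right]; rfl
    have w0 : w = 0 := Lp.eq_zero_iff_ae_eq_zero.2 (sinc (Lp.memLp w) fun n hn => by
      obtain ⟨n, rfl⟩ := Nat.exists_eq_add_of_le' hn
      refine mul_left_cancel₀ q ?_
      rw [← i1 _ _ _ (hs _), hi, hP _ hn, i1 _ _ _ (hs _), i1 _ _ _ (hc _), mul_zero, mul_left_comm,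
        ← mul_sub, ← integral_const_mul, ← integral_sub]
      · refine mul_eq_zero_of_right _ (.trans ?_ ((congrArg (((a : ℂ) + b)⁻¹ * ·) (cauchy k n)).trans
          (mul_zero _)))
        simp only [← integral_const_mul]
        refine integral_congr_ae ?_
        filter_upwards [ae_restrict_mem measurableSet_Ioo, (me k).coeFn_toLp] with t ht e
        rw [F_bd k ht 1 (.inl rfl), F_bd k ht (-1) (.inr rfl), e, ← neg_mul, exp_mul_I (_ * (t : ℂ)),
          exp_mul_I (-_), Complex.cos_neg, Complex.sin_neg]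
        change _ = _ * (_ * (a : ℂ) * _ + _ * (b : ℂ) * _)
        clear_value a b
        push_cast
        field_simp
        ring
      · exact ((Lp.memLp _).integrable one_le_two).bdd_mul (c := 1) (by fun_prop)
          (.of_forall fun t => by rw [norm_real]; exact Real.abs_cos_le_one _)
      · exact (((Lp.memLp _).integrable one_le_two).bdd_mul (c := 1) (by fun_prop)
          (.of_forall fun t => by rw [norm_real]; exact Real.abs_sin_le_one _)).const_mul _)
    rw [← sub_eq_zero, ← hi, w0, inner_zero_right]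
  refine (Submodule.eq_bot_iff _).2 fun h hh => Lp.eq_zero_iff_ae_eq_zero.2 (uniq mξ
    (η := fun x => Real.arccos ((Real.exp x ^ 2 - 1) / (Real.exp x ^ 2 + 1))) (by fun_prop) ?_
    ((Lp.memLp h).integrable one_le_two) fun k => ?_)
  · filter_upwards [ae_restrict_mem measurableSet_Ioo] with t ht
    have s0 := Real.sin_pos_of_mem_Ioo ht
    have c1 : 0 < 1 - Real.cos t := by nlinarith [Real.sin_sq_add_cos_sq t, Real.cos_le_one t]
    rw [ξ, Real.exp_log (by positivity), ← Real.arccos_cos ht.1.le ht.2.le, Real.cos_arccos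
      (Real.neg_one_le_cos _) (Real.cos_le_one _), Real.arccos_cos ht.1.le ht.2.le]
    conv_rhs => rw [← Real.arccos_cos ht.1.le ht.2.le]
    congr 1
    rw [div_eq_iff (by positivity), div_pow, Real.sin_sq]
    field_simp
    ring
  · obtain ⟨l, l1, l2⟩ := key (-k)
    have it : ∀ (n : ℕ) g, ‖inner ℂ ((P.toLinearMap ^ n) g) (me (-k)).toLp‖ =
        ‖l‖ ^ n * ‖inner ℂ g (me (-k)).toLp‖ ∧ ‖(P.toLinearMap ^ n) g‖ = ‖g‖ := fun n g => by
      induction n with
      | zero => simp
      | succ n ih =>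
        rw [pow_succ', Module.End.mul_apply, LinearIsometry.coe_toLinearMap, l2, norm_mul, ih.1,
          P.norm_map, ih.2, pow_succ']
        exact ⟨by ring, rfl⟩
    have z : ‖inner ℂ h (me (-k)).toLp‖ ≤ 0 := ge_of_tendsto' (by
      simpa only [zero_mul] using (tendsto_pow_atTop_nhds_zero_of_lt_one (norm_nonneg l) l1).mul_const
        (‖h‖ * ‖(me (-k)).toLp‖)) fun n => by
      obtain ⟨g, rfl⟩ := (Submodule.mem_iInf _).1 hh n
      rw [(it n g).1, (it n g).2]
      gcongr; exact norm_inner_le_norm _ _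
    rw [norm_le_zero_iff, inner_eq_zero_symm, L2.inner_def] at z
    rw [← z]
    refine integral_congr_ae ((me (-k)).coeFn_toLp.mono fun t ht => ?_)
    simp only [ht, RCLike.inner_apply, ← exp_conj, map_mul, conj_ofReal, conj_I]
    push_cast; ring_nf

end Pool.Agent.Results.MP_f617a8_an.Yes
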